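import Pool.Agent.R363.SD.Atr

/-!
# The rank one Stark conjecture over complex cubic fields: reduction to deep moduli

`K` is a cubic field with exactly one complex place, `ι` is an embedding of the algebraic closure of
`K` into the complex numbers which is not real on `K`, and for every ideal `𝔣` of the ring of
integers `C 𝔣` is the narrow ray class field modulo `𝔣` (the modulus is `𝔣` times the real place),
with its Artin map.  (For `𝔣 = 0` this is `K` itself.)

Ray class fields, ray classes, partial zeta functions, differences, deep multiples and the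
conditions on the unit are defined in `Pool.Agent.R363.SD.Defs`.
-/

set_option autoImplicit false

open NumberField

namespace Pool.Agent.Results.MP_d9f52e_nt.DeepModuliCubic

open Pool.Agent.R363.SD

/-- **Reduction to deep moduli.**  Let `𝔪` be a nonzero ideal divisible by all the primes above `2`.
The rank one Stark conjecture for the modulus `𝔪` is
`ForZeta Set.univ 𝔪 𝔪 0 (StarkComplex ι (C 𝔪))`.

It holds if for some `n`, `k` and some nonzero `𝔟`, every set `s` of `n` principal prime ideals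
`𝔮 = (γ)` of prime norm, with `γ ≡ 1` modulo `𝔪` and coprime to `𝔟`, has a multiple `𝔣` of
`4 ^ (n + k) 𝔪 ∏ 𝔮` with the same prime divisors as `𝔪 ∏ 𝔮`, for which there are Stark units
modulo `𝔣` for all `k`-fold differences of `-ζ'(0, A)` along principal ideals `(γ)` with `γ ≡ 1`
modulo `𝔪`.  Conversely the conjecture for all the multiples of `𝔪` implies this condition. -/
theorem result (K : Type) [Field K] [NumberField K] (hK : Module.finrank ℚ K = 3)
    (hc : InfinitePlace.nrComplexPlaces K = 1) (ι : AlgebraicClosure K →+* ℂ)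
    (hι : ¬ ComplexEmbedding.IsReal (ι.comp (algebraMap K (AlgebraicClosure K))))
    (C : ∀ 𝔣 : Ideal (𝓞 K), RayClassField Set.univ 𝔣) (n k : ℕ)
    (𝔪 𝔟 : Ideal (𝓞 K)) (h𝔪 : 𝔪 ≠ ⊥) (h𝔟 : 𝔟 ≠ ⊥)
    (h2 : ∀ 𝔭 : Ideal (𝓞 K), 𝔭.IsPrime → (2 : 𝓞 K) ∈ 𝔭 → 𝔪 ≤ 𝔭) :
    (HoldsDeep Set.univ (fun 𝔣 => StarkComplex ι (C 𝔣)) n k 𝔪 𝔟 →
      ForZeta Set.univ 𝔪 𝔪 0 (StarkComplex ι (C 𝔪))) ∧
    ((∀ 𝔣 : Ideal (𝓞 K), 𝔣 ≠ ⊥ → 𝔣 ≤ 𝔪 → ForZeta Set.univ 𝔣 𝔣 0 (StarkComplex ι (C 𝔣))) →
      HoldsDeep Set.univ (fun 𝔣 => StarkComplex ι (C 𝔣)) n k 𝔪 𝔟) := by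
  have hr : InfinitePlace.nrRealPlaces K ≠ 0 := by
    have h1 := InfinitePlace.card_add_two_mul_card_eq_rank K
    rw [hK, hc] at h1
    omega
  obtain ⟨hR, hne, hall⟩ := atr_embeddings hc hr hι
  exact complex_reduction hR hne hall C n k 𝔪 𝔟 h𝔪 h𝔟 h2

end Pool.Agent.Results.MP_d9f52e_nt.DeepModuliCubic
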